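import Mathlib

set_option autoImplicit false

/-!
A nonzero system of weights on the `k`-subsets of `2 k + 1` points which is annihilated by two
given linear forms.
-/

namespace Pool.Agent.K2h1.Sq

open Finset Polynomial

/-- weighted sums over the insertions -/
def Rel {n : ℕ} {R : Type*} [CommRing R] (c : Fin n → R) (k : ℕ) (φ : Finset (Fin n) → R) : Prop :=
  ∀ T : Finset (Fin n), T.card + 1 = k → ∑ i ∈ univ \ T, c i * φ (insert i T) = 0

section generic

variable {F : Type*} [Field F] {n : ℕ}

/-- the weight -/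
noncomputable def wt (v : Fin n → F) (i : Fin n) : F := ∏ j ∈ univ.erase i, (v i - v j)⁻¹

theorem lagrange_zero (v : Fin n → F) (hv : Function.Injective v) (P : F[X])
    (hP : P.natDegree + 1 < n) : ∑ i, P.eval (v i) * wt v i = 0 := by
  have hn : 0 < n := by omega
  have h1 : P.degree < ((univ : Finset (Fin n)).card : WithBot ℕ) := by
    rw [card_univ, Fintype.card_fin]
    refine lt_of_le_of_lt degree_le_natDegree ?_
    exact_mod_cast (by omega : P.natDegree < n)
  have h2 := Lagrange.coeff_eq_sum (s := univ) (v := v) hv.injOn h1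
  rw [card_univ, Fintype.card_fin, coeff_eq_zero_of_natDegree_lt (by omega)] at h2
  rw [h2]
  refine sum_congr rfl fun i _ => ?_
  rw [wt, prod_inv_distrib, div_eq_mul_inv]

/-- the weights on subsets -/
noncomputable def phi (a v : Fin n → F) (S : Finset (Fin n)) : F :=
  (∏ i ∈ S, (wt v i / a i)) * ∏ i ∈ S, ∏ j ∈ S.erase i, (v i - v j)

theorem phi_insert (a v : Fin n → F) (T : Finset (Fin n)) (i : Fin n) (hi : i ∉ T) :
    phi a v (insert i T) = (wt v i / a i) * ((-1) ^ T.card * ∏ j ∈ T, (v i - v j) ^ 2) *
      phi a v T := by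
  unfold phi
  rw [prod_insert hi, prod_insert hi, erase_insert hi]
  have h1 : ∀ x ∈ T, ∏ j ∈ (insert i T).erase x, (v x - v j)
      = (-1) * (v i - v x) * ∏ j ∈ T.erase x, (v x - v j) := by
    intro x hx
    have hxi : x ≠ i := fun h => hi (h ▸ hx)
    rw [erase_insert_of_ne hxi.symm, prod_insert (fun h => hi (mem_of_mem_erase h))]
    ring
  rw [prod_congr rfl h1, prod_mul_distrib, prod_mul_distrib, prod_const, prod_pow]
  ring

theorem phi_ne_zero (a v : Fin n → F) (ha : ∀ i, a i ≠ 0) (hv : Function.Injective v)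
    (S : Finset (Fin n)) : phi a v S ≠ 0 := by
  unfold phi wt
  refine mul_ne_zero (prod_ne_zero_iff.2 fun i _ => div_ne_zero ?_ (ha i))
    (prod_ne_zero_iff.2 fun i _ => prod_ne_zero_iff.2 fun j hj => ?_)
  · refine prod_ne_zero_iff.2 fun j hj => inv_ne_zero ?_
    rw [sub_ne_zero]
    exact fun h => (mem_erase.1 hj).1 (hv h).symm
  · rw [sub_ne_zero]
    exact fun h => (mem_erase.1 hj).1 (hv h).symm

theorem rel_aux (a v : Fin n → F) (ha : ∀ i, a i ≠ 0) (hv : Function.Injective v) (k e : ℕ)
    (hn : 2 * (k - 1) + e + 1 < n) :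
    Rel (fun i => a i * v i ^ e) k (phi a v) := by
  intro T hT
  have h1 : ∀ i ∈ univ \ T, a i * v i ^ e * phi a v (insert i T)
      = (-1) ^ T.card * phi a v T *
        ((X ^ e * ∏ j ∈ T, (X - C (v j)) ^ 2 : F[X]).eval (v i) * wt v i) := by
    intro i hi
    rw [phi_insert a v T i (mem_sdiff.1 hi).2, eval_mul, eval_prod, eval_pow, eval_X]
    simp only [eval_pow, eval_sub, eval_X, eval_C]
    field_simp [ha i]
  rw [sum_congr rfl h1, ← mul_sum]
  have h2 : ∑ i ∈ univ \ T, (X ^ e * ∏ j ∈ T, (X - C (v j)) ^ 2 : F[X]).eval (v i) * wt v i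
      = ∑ i, (X ^ e * ∏ j ∈ T, (X - C (v j)) ^ 2 : F[X]).eval (v i) * wt v i := by
    refine sum_subset (subset_univ _) fun i _ hi => ?_
    have hiT : i ∈ T := by
      by_contra h
      exact hi (mem_sdiff.2 ⟨mem_univ _, h⟩)
    rw [eval_mul, eval_prod, prod_eq_zero hiT (by simp), mul_zero, zero_mul]
  rw [h2, lagrange_zero v hv, mul_zero]
  have h3 : (X ^ e * ∏ j ∈ T, (X - C (v j)) ^ 2 : F[X]).natDegree ≤ e + 2 * T.card := by
    refine natDegree_mul_le.trans (add_le_add (natDegree_X_pow_le e) ?_)
    refine (natDegree_prod_le _ _).trans ?_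
    rw [mul_comm, ← smul_eq_mul, ← sum_const]
    refine sum_le_sum fun j _ => ?_
    refine natDegree_pow_le.trans ?_
    rw [natDegree_X_sub_C]
  omega

end generic

section special

variable {n : ℕ}

/-- the matrix of the relations -/
def relMat {R : Type*} [CommRing R] (k : ℕ) (a b : Fin n → R) :
    Matrix ({T : Finset (Fin n) // T.card + 1 = k} × Bool) {S : Finset (Fin n) // S.card = k} R :=
  fun p S => ∑ i ∈ univ \ p.1.1, if insert i p.1.1 = S.1 then (if p.2 then a i else b i) else 0

theorem relMat_mulVec {R : Type*} [CommRing R] (k : ℕ) (a b : Fin n → R)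
    (φ : {S : Finset (Fin n) // S.card = k} → R) (T : {T : Finset (Fin n) // T.card + 1 = k})
    (e : Bool) :
    (relMat k a b).mulVec φ (T, e) = ∑ i ∈ univ \ T.1, (if e then a i else b i) *
      (if h : (insert i T.1).card = k then φ ⟨insert i T.1, h⟩ else 0) := by
  unfold Matrix.mulVec relMat dotProduct
  simp only [sum_mul]
  rw [sum_comm]
  refine sum_congr rfl fun i hi => ?_
  have hc : (insert i T.1).card = k := by
    rw [card_insert_of_notMem (mem_sdiff.1 hi).2]
    exact T.2
  rw [dif_pos hc, sum_eq_single ⟨insert i T.1, hc⟩]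
  · simp
  · intro S _ hS
    rw [if_neg, zero_mul]
    intro h
    exact hS (Subtype.ext h.symm)
  · intro h
    exact absurd (mem_univ _) h

theorem relMat_eq_zero_iff {R : Type*} [CommRing R] (k : ℕ) (a b : Fin n → R)
    (φ : Finset (Fin n) → R) :
    (relMat k a b).mulVec (fun S => φ S.1) = 0 ↔ Rel a k φ ∧ Rel b k φ := by
  have key : ∀ (T : {T : Finset (Fin n) // T.card + 1 = k}) (e : Bool),
      (relMat k a b).mulVec (fun S => φ S.1) (T, e)
        = ∑ i ∈ univ \ T.1, (if e then a i else b i) * φ (insert i T.1) := by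
    intro T e
    rw [relMat_mulVec]
    refine sum_congr rfl fun i hi => ?_
    have hc : (insert i T.1).card = k := by
      rw [card_insert_of_notMem (mem_sdiff.1 hi).2]
      exact T.2
    rw [dif_pos hc]
  constructor
  · intro h
    refine ⟨fun T hT => ?_, fun T hT => ?_⟩
    · have := congrFun h (⟨T, hT⟩, true)
      rw [key] at this
      simpa using this
    · have := congrFun h (⟨T, hT⟩, false)
      rw [key] at this
      simpa using this
  · rintro ⟨h1, h2⟩
    funext p
    obtain ⟨T, e⟩ := p
    rw [key]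
    cases e
    · simpa using h2 T.1 T.2
    · simpa using h1 T.1 T.2

theorem relMat_map {R S : Type*} [CommRing R] [CommRing S] (f : R →+* S) (k : ℕ)
    (a b : Fin n → R) : (relMat k a b).map f = relMat k (fun i => f (a i)) (fun i => f (b i)) := by
  ext p S
  simp only [Matrix.map_apply, relMat, map_sum]
  refine sum_congr rfl fun i _ => ?_
  split_ifs <;> simp

/-- Over every field, two arbitrary linear forms in `2 k + 1` variables annihilate a nonzero system
of weights on the `k`-subsets. -/
theorem exists_phi (K : Type*) [Field K] (k : ℕ) (a b : Fin (2 * k + 1) → K) :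
    ∃ φ : Finset (Fin (2 * k + 1)) → K, (∃ S, S.card = k ∧ φ S ≠ 0) ∧ Rel a k φ ∧ Rel b k φ := by
  classical
  by_contra hcon
  push Not at hcon
  -- the matrix is injective
  have hinj : Function.Injective (Matrix.toLin' (relMat k a b)) := by
    rw [← LinearMap.ker_eq_bot, LinearMap.ker_eq_bot']
    intro φ hφ
    rw [Matrix.toLin'_apply] at hφ
    by_contra hne
    obtain ⟨S, hS⟩ : ∃ S, φ S ≠ 0 := by
      by_contra h
      push Not at h
      exact hne (funext h)
    let ψ : Finset (Fin (2 * k + 1)) → K := fun S => if h : S.card = k then φ ⟨S, h⟩ else 0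
    have hψ : (fun S : {S : Finset (Fin (2 * k + 1)) // S.card = k} => ψ S.1) = φ := by
      funext S
      simp only [ψ]
      rw [dif_pos S.2]
    have h1 := (relMat_eq_zero_iff k a b ψ).1 (by rw [hψ]; exact hφ)
    exact hcon ψ ⟨S.1, S.2, by have := congrFun hψ S; rw [this]; exact hS⟩ h1.1 h1.2
  obtain ⟨g, hg⟩ := (Matrix.toLin' (relMat k a b)).exists_leftInverse_of_injective
    (LinearMap.ker_eq_bot.2 hinj)
  let N := LinearMap.toMatrix' g
  have hN : N * relMat k a b = 1 := by
    have h1 : LinearMap.toMatrix' (g ∘ₗ Matrix.toLin' (relMat k a b)) = 1 := by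
      rw [hg, LinearMap.toMatrix'_id]
    rw [LinearMap.toMatrix'_comp, LinearMap.toMatrix'_toLin'] at h1
    exact h1
  -- deform
  let a' : Fin (2 * k + 1) → K[X] := fun i => C (a i) + X
  let b' : Fin (2 * k + 1) → K[X] := fun i => C (b i) + X ^ (i.val + 2)
  have ha0 : (relMat k a' b').map (evalRingHom (0 : K)) = relMat k a b := by
    rw [relMat_map]
    congr 1 <;> funext i <;> simp [a', b']
  have hdet : (N.map C * relMat k a' b').det ≠ 0 := by
    intro h
    have h1 : (evalRingHom (0 : K)) (N.map C * relMat k a' b').det = 1 := by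
      rw [RingHom.map_det, RingHom.mapMatrix_apply, Matrix.map_mul, ha0, Matrix.map_map]
      have : (N.map (⇑(evalRingHom (0 : K)) ∘ ⇑C)) = N := by
        ext i j
        simp
      rw [this, hN, Matrix.det_one]
    rw [h, map_zero] at h1
    exact zero_ne_one h1
  let F := RatFunc K
  let ι := algebraMap K[X] F
  have hι : Function.Injective ι := IsFractionRing.injective K[X] F
  have ha1 : ∀ i, a' i ≠ 0 := by
    intro i h
    have := congrArg (fun p => p.coeff 1) h
    simp [a', coeff_C] at this
  have hD : ∀ i j : Fin (2 * k + 1), i < j → a' i * b' j - a' j * b' i ≠ 0 := by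
    intro i j hij h
    have h1 := congrArg (fun p => p.coeff (j.val + 3)) h
    have hij' : i.val < j.val := hij
    simp only [a', b', coeff_sub, coeff_zero, add_mul, mul_add, coeff_add, ← C_mul, coeff_C,
      coeff_C_mul, coeff_X_mul, coeff_X_pow, coeff_mul_C, coeff_X] at h1
    have e1 : ¬ (j.val + 3 = 0) := by omega
    have e2 : ¬ (1 = j.val + 3) := by omega
    have e3 : ¬ (j.val + 3 = j.val + 2) := by omega
    have e4 : ¬ (j.val + 3 = i.val + 2) := by omega
    have e5 : ¬ (j.val + 2 = i.val + 2) := by omega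
    simp only [e1, e2, e3, e4, e5, if_false, if_true] at h1
    simp at h1
  have hu : ∀ i, ι (a' i) ≠ 0 := fun i h => ha1 i (hι (by rw [h, map_zero]))
  let v : Fin (2 * k + 1) → F := fun i => ι (b' i) / ι (a' i)
  have hv : Function.Injective v := by
    intro i j hij
    have h1 : ι (a' i * b' j - a' j * b' i) = 0 := by
      rw [map_sub, map_mul, map_mul]
      have h2 : ι (b' i) / ι (a' i) = ι (b' j) / ι (a' j) := hij
      rw [div_eq_div_iff (hu i) (hu j)] at h2
      linear_combination -h2
    have h3 := hι (h1.trans (map_zero ι).symm)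
    rcases lt_trichotomy i j with h | h | h
    · exact absurd h3 (hD i j h)
    · exact h
    · exact absurd (by linear_combination -h3) (hD j i h)
  have hrel : Rel (fun i => ι (a' i)) k (phi (fun i => ι (a' i)) v) ∧
      Rel (fun i => ι (b' i)) k (phi (fun i => ι (a' i)) v) := by
    constructor
    · rcases Nat.eq_zero_or_pos k with h0 | h0
      · intro T hT
        omega
      · have := rel_aux (fun i => ι (a' i)) v hu hv k 0 (by omega)
        simpa using this
    · rcases Nat.eq_zero_or_pos k with h0 | h0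
      · intro T hT
        omega
      · have := rel_aux (fun i => ι (a' i)) v hu hv k 1 (by omega)
        have h2 : (fun i => ι (b' i)) = fun i => ι (a' i) * v i ^ 1 := by
          funext i
          rw [pow_one]
          exact (mul_div_cancel₀ _ (hu i)).symm
        rw [h2]
        exact this
  rw [← relMat_eq_zero_iff] at hrel
  have hz := Matrix.eq_zero_of_mulVec_eq_zero (M := (N.map C * relMat k a' b').map ι)
    (v := fun S => phi (fun i => ι (a' i)) v S.1) ?_ ?_
  · obtain ⟨S, -, hS⟩ : ∃ S ⊆ (univ : Finset (Fin (2 * k + 1))), S.card = k :=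
      exists_subset_card_eq (by rw [card_univ, Fintype.card_fin]; omega)
    exact phi_ne_zero _ v hu hv S (congrFun hz ⟨S, hS⟩)
  · rw [← RingHom.mapMatrix_apply, ← RingHom.map_det]
    exact fun h => hdet (hι (by rw [h, map_zero]))
  · rw [Matrix.map_mul, ← Matrix.mulVec_mulVec, relMat_map, hrel, Matrix.mulVec_zero]

end special

end Pool.Agent.K2h1.Sq
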