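import Pool.Agent.K2h1.SqA

set_option autoImplicit false

/-!
The square-free algebra, its graded quotients, and the functional given by a system of weights on
the `k`-subsets.
-/

namespace Pool.Agent.K2h1.Sq

open Finset MvPolynomial

universe u

/-- The square-free algebra `K[x_1, …, x_n] / (x_1 ^ 2, …, x_n ^ 2)`. -/
abbrev SqFree (K : Type u) [Field K] (n : ℕ) : Type u :=
  MvPolynomial (Fin n) K ⧸ Ideal.span (Set.range fun i : Fin n => (X i : MvPolynomial (Fin n) K) ^ 2)

/-- The homogeneous elements of degree `k` of the square-free algebra. -/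
noncomputable def piece (K : Type u) [Field K] (n k : ℕ) : Submodule K (SqFree K n) :=
  (homogeneousSubmodule (Fin n) K k).map (Ideal.Quotient.mkₐ K (Ideal.span (Set.range
    fun i : Fin n => (X i : MvPolynomial (Fin n) K) ^ 2))).toLinearMap

/-- The Hilbert function of the quotient of the square-free algebra by an ideal `I`: the dimension
of the image of the homogeneous elements of degree `k`. -/
noncomputable def hilb {K : Type u} [Field K] {n : ℕ} (I : Ideal (SqFree K n)) (k : ℕ) : ℕ :=
  Module.finrank K ((piece K n k).map (Ideal.Quotient.mkₐ K I).toLinearMap)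

/-- The coefficient of `t ^ k` in the truncation of `∑ a_i t ^ i` before its first coefficient
`a_i ≤ 0`. -/
noncomputable def truncCoeff (a : Polynomial ℤ) (k : ℕ) : ℤ :=
  open Classical in if ∀ j ≤ k, 0 < a.coeff j then a.coeff k else 0

section functional

variable {K : Type u} [Field K] {n : ℕ}

/-- the exponent vector of a subset -/
noncomputable def ex (S : Finset (Fin n)) : Fin n →₀ ℕ :=
  Finsupp.equivFunOnFinite.symm (fun i => if i ∈ S then 1 else 0)

theorem ex_apply (S : Finset (Fin n)) (i : Fin n) : ex S i = if i ∈ S then 1 else 0 := rfl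

theorem ex_injective : Function.Injective (ex : Finset (Fin n) → _) := by
  intro S T h
  ext i
  have := DFunLike.congr_fun h i
  rw [ex_apply, ex_apply] at this
  split_ifs at this <;> simp_all

theorem ex_degree (S : Finset (Fin n)) : (ex S).degree = S.card := by
  rw [Finsupp.degree_eq_sum]
  simp [ex_apply]

theorem ex_sub (S : Finset (Fin n)) (i : Fin n) : ex S - Finsupp.single i 1 = ex (S.erase i) := by
  ext j
  rw [Finsupp.tsub_apply, ex_apply, ex_apply, Finsupp.single_apply]
  by_cases h : i = j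
  · subst h
    simp
    split_ifs <;> rfl
  · simp [h, Ne.symm h, mem_erase]

theorem mem_support_ex (S : Finset (Fin n)) (i : Fin n) : i ∈ (ex S).support ↔ i ∈ S := by
  rw [Finsupp.mem_support_iff, ex_apply]
  split_ifs with h <;> simp [h]

theorem coeff_X_mul_ex (S : Finset (Fin n)) (i : Fin n) (p : MvPolynomial (Fin n) K) :
    coeff (ex S) (X i * p) = if i ∈ S then coeff (ex (S.erase i)) p else 0 := by
  rw [coeff_X_mul', ex_sub]
  simp only [mem_support_ex]

/-- the functional -/
noncomputable def Phi (k : ℕ) (φ : Finset (Fin n) → K) : MvPolynomial (Fin n) K →ₗ[K] K :=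
  ∑ S ∈ powersetCard k univ, φ S • lcoeff K (ex S)

theorem Phi_apply (k : ℕ) (φ : Finset (Fin n) → K) (p : MvPolynomial (Fin n) K) :
    Phi k φ p = ∑ S ∈ powersetCard k univ, φ S * coeff (ex S) p := by
  simp [Phi, LinearMap.sum_apply]

theorem Phi_sq (k : ℕ) (φ : Finset (Fin n) → K) (i : Fin n) (p : MvPolynomial (Fin n) K) :
    Phi k φ (X i ^ 2 * p) = 0 := by
  rw [Phi_apply]
  refine sum_eq_zero fun S _ => ?_
  rw [pow_two, mul_assoc, coeff_X_mul_ex, coeff_X_mul_ex]
  simp

theorem Phi_monomial (k : ℕ) (φ : Finset (Fin n) → K) (S : Finset (Fin n)) (hS : S.card = k) :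
    Phi k φ (monomial (ex S) 1) = φ S := by
  rw [Phi_apply, sum_eq_single S]
  · simp
  · intro T _ hT
    rw [coeff_monomial, if_neg (fun h => hT (ex_injective h).symm), mul_zero]
  · intro h
    exact absurd (mem_powersetCard.2 ⟨subset_univ _, hS⟩) h

theorem Phi_linear (k : ℕ) (c : Fin n → K) (φ : Finset (Fin n) → K) (h : Rel c k φ)
    (p : MvPolynomial (Fin n) K) : Phi k φ ((∑ i, C (c i) * X i) * p) = 0 := by
  rw [Phi_apply]
  have h1 : ∀ S ∈ powersetCard k (univ : Finset (Fin n)),
      φ S * coeff (ex S) ((∑ i, C (c i) * X i) * p)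
        = ∑ i ∈ S, φ S * (c i * coeff (ex (S.erase i)) p) := by
    intro S _
    rw [sum_mul, coeff_sum, ← mul_sum]
    congr 1
    have h2 : ∀ i ∈ (univ : Finset (Fin n)), coeff (ex S) (C (c i) * X i * p)
        = if i ∈ S then c i * coeff (ex (S.erase i)) p else 0 := by
      intro i _
      rw [mul_assoc, coeff_C_mul, coeff_X_mul_ex]
      split_ifs <;> simp
    rw [sum_congr rfl h2, sum_ite_mem, univ_inter]
  rw [sum_congr rfl h1]
  rcases Nat.eq_zero_or_pos k with hk | hk
  · subst hk
    simp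
  obtain ⟨k', rfl⟩ : ∃ k', k = k' + 1 := ⟨k - 1, by omega⟩
  have h3 : ∀ T ∈ powersetCard k' (univ : Finset (Fin n)),
      ∑ i ∈ univ \ T, φ (insert i T) * (c i * coeff (ex T) p) = 0 := by
    intro T hT
    have h4 := h T (by rw [(mem_powersetCard.1 hT).2])
    calc ∑ i ∈ univ \ T, φ (insert i T) * (c i * coeff (ex T) p)
        = (∑ i ∈ univ \ T, c i * φ (insert i T)) * coeff (ex T) p := by
          rw [sum_mul]
          exact sum_congr rfl fun i _ => by ring
      _ = 0 := by rw [h4, zero_mul]
  rw [← sum_eq_zero h3, sum_sigma', sum_sigma']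
  refine sum_bij' (fun x _ => (⟨x.1.erase x.2, x.2⟩ : (_ : Finset (Fin n)) × Fin n))
    (fun x _ => (⟨insert x.2 x.1, x.2⟩ : (_ : Finset (Fin n)) × Fin n)) ?_ ?_ ?_ ?_ ?_
  · rintro ⟨S, i⟩ hx
    simp only [mem_sigma, mem_powersetCard, subset_univ, true_and] at hx
    simp only [mem_sigma, mem_powersetCard, subset_univ, true_and, mem_sdiff, mem_univ]
    refine ⟨?_, notMem_erase _ _⟩
    rw [card_erase_of_mem hx.2, hx.1]
    rfl
  · rintro ⟨T, i⟩ hx
    simp only [mem_sigma, mem_powersetCard, subset_univ, true_and, mem_sdiff, mem_univ] at hx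
    simp only [mem_sigma, mem_powersetCard, subset_univ, true_and]
    exact ⟨by rw [card_insert_of_notMem hx.2, hx.1], mem_insert_self _ _⟩
  · rintro ⟨S, i⟩ hx
    simp only [mem_sigma, mem_powersetCard, subset_univ, true_and] at hx
    simp [insert_erase hx.2]
  · rintro ⟨T, i⟩ hx
    simp only [mem_sigma, mem_powersetCard, subset_univ, true_and, mem_sdiff, mem_univ] at hx
    simp [erase_insert hx.2]
  · rintro ⟨S, i⟩ hx
    simp only [mem_sigma, mem_powersetCard, subset_univ, true_and] at hx
    simp [insert_erase hx.2]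

theorem Phi_high (k : ℕ) (φ : Finset (Fin n) → K) (D : ℕ) (hD : k < D)
    (h : MvPolynomial (Fin n) K) (hh : h.IsHomogeneous D) (p : MvPolynomial (Fin n) K) :
    Phi k φ (h * p) = 0 := by
  rw [Phi_apply]
  refine sum_eq_zero fun S hS => ?_
  rw [coeff_mul, sum_eq_zero, mul_zero]
  rintro ⟨x, y⟩ hxy
  rw [HasAntidiagonal.mem_antidiagonal] at hxy
  have h2 : x.degree + y.degree = k := by
    rw [← map_add, hxy, ex_degree, (mem_powersetCard.1 hS).2]
  rw [hh.coeff_eq_zero (by omega : x.degree ≠ D), zero_mul]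

/-- the polynomials all of whose multiples are annihilated by the functional -/
noncomputable def nullIdeal (k : ℕ) (φ : Finset (Fin n) → K) : Ideal (MvPolynomial (Fin n) K) where
  carrier := {z | ∀ p, Phi k φ (z * p) = 0}
  zero_mem' := fun p => by rw [zero_mul, map_zero]
  add_mem' := fun {x y} hx hy p => by rw [add_mul, map_add, hx p, hy p, add_zero]
  smul_mem' := fun c x hx p => by
    rw [smul_eq_mul, mul_comm c x, mul_assoc]
    exact hx (c * p)

theorem mem_nullIdeal {k : ℕ} {φ : Finset (Fin n) → K} {z : MvPolynomial (Fin n) K} :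
    z ∈ nullIdeal k φ ↔ ∀ p, Phi k φ (z * p) = 0 := Iff.rfl

theorem linear_form (h : MvPolynomial (Fin n) K) (hh : h.IsHomogeneous 1) :
    ∃ c : Fin n → K, h = ∑ i, C (c i) * X i := by
  have h1 : h ∈ homogeneousSubmodule (Fin n) K 1 := (mem_homogeneousSubmodule _ _).2 hh
  rw [homogeneousSubmodule_one_eq_span_X, Submodule.mem_span_range_iff_exists_fun] at h1
  obtain ⟨c, hc⟩ := h1
  refine ⟨c, ?_⟩
  rw [← hc]
  exact sum_congr rfl fun i _ => by rw [smul_eq_C_mul]

end functional

/-- The main statement: the degree `k` part of a quotient by two linear forms and forms of larger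
degree does not vanish. -/
theorem hilb_pos (K : Type u) [Field K] (k : ℕ) {r : ℕ} (d : Fin (r + 2) → ℕ)
    (h0 : d 0 = 1) (h1 : d 1 = 1) (hd : ∀ i, i ≠ 0 → i ≠ 1 → k < d i)
    (f : Fin (r + 2) → SqFree K (2 * k + 1)) (hf : ∀ i, f i ∈ piece K (2 * k + 1) (d i)) :
    0 < hilb (Ideal.span (Set.range f)) k := by
  classical
  set Sq : Ideal (MvPolynomial (Fin (2 * k + 1)) K) :=
    Ideal.span (Set.range fun i : Fin (2 * k + 1) => (X i : MvPolynomial (Fin (2 * k + 1)) K) ^ 2)
    with hSq
  choose g hg hgf using hf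
  have hg' : ∀ i, (g i).IsHomogeneous (d i) := fun i => (mem_homogeneousSubmodule _ _).1 (hg i)
  have hg0 := hg' 0
  have hg1 := hg' 1
  rw [h0] at hg0
  rw [h1] at hg1
  obtain ⟨c0, hl0⟩ := linear_form (g 0) hg0
  obtain ⟨c1, hl1⟩ := linear_form (g 1) hg1
  obtain ⟨φ, ⟨S, hS, hφ⟩, hr0, hr1⟩ := exists_phi K k c0 c1
  have hN : Ideal.span (Set.range g) ⊔ Sq ≤ nullIdeal k φ := by
    refine sup_le ?_ ?_
    · rw [Ideal.span_le]
      rintro _ ⟨i, rfl⟩
      show g i ∈ nullIdeal k φ
      rw [mem_nullIdeal]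
      intro p
      by_cases hi0 : i = 0
      · subst hi0
        rw [hl0]
        exact Phi_linear k _ φ hr0 p
      · by_cases hi1 : i = 1
        · subst hi1
          rw [hl1]
          exact Phi_linear k _ φ hr1 p
        · exact Phi_high k φ (d i) (hd i hi0 hi1) _ (hg' i) p
    · rw [hSq, Ideal.span_le]
      rintro _ ⟨i, rfl⟩
      show X i ^ 2 ∈ nullIdeal k φ
      rw [mem_nullIdeal]
      exact Phi_sq k φ i
  have hcomap : (Ideal.span (Set.range f)).comap (Ideal.Quotient.mk Sq)
      = Ideal.span (Set.range g) ⊔ Sq := by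
    have e1 : Ideal.span (Set.range f) = (Ideal.span (Set.range g)).map (Ideal.Quotient.mk Sq) := by
      rw [Ideal.map_span, ← Set.range_comp]
      congr 2
      funext i
      exact (hgf i).symm
    rw [e1, Ideal.comap_map_of_surjective _ Ideal.Quotient.mk_surjective]
    congr 1
    exact Ideal.mk_ker
  unfold hilb
  have hfin : Module.Finite K (homogeneousSubmodule (Fin (2 * k + 1)) K k) :=
    Module.Finite.iff_fg.2 (homogeneousSubmodule_fg _ _ k)
  have hfin2 : Module.Finite K (piece K (2 * k + 1) k) := by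
    unfold piece
    exact Module.Finite.map _ _
  have hfin3 : Module.Finite K ((piece K (2 * k + 1) k).map
      (Ideal.Quotient.mkₐ K (Ideal.span (Set.range f))).toLinearMap) := Module.Finite.map _ _
  rw [Nat.pos_iff_ne_zero, Ne, Submodule.finrank_eq_zero]
  intro hbot
  have hx : monomial (ex S) (1 : K) ∈ homogeneousSubmodule (Fin (2 * k + 1)) K k := by
    rw [mem_homogeneousSubmodule]
    exact isHomogeneous_monomial _ ((ex_degree S).trans hS)
  have hmem : Ideal.Quotient.mkₐ K (Ideal.span (Set.range f)) (Ideal.Quotient.mkₐ K Sq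
    (monomial (ex S) 1)) ∈ (piece K (2 * k + 1) k).map
      (Ideal.Quotient.mkₐ K (Ideal.span (Set.range f))).toLinearMap :=
    Submodule.mem_map_of_mem (Submodule.mem_map_of_mem hx)
  rw [hbot, Submodule.mem_bot] at hmem
  have h2 : Ideal.Quotient.mk (Ideal.span (Set.range f)) (Ideal.Quotient.mk Sq
    (monomial (ex S) 1)) = 0 := hmem
  rw [Ideal.Quotient.eq_zero_iff_mem] at h2
  have h3 : monomial (ex S) (1 : K) ∈ (Ideal.span (Set.range f)).comap (Ideal.Quotient.mk Sq) := h2
  rw [hcomap] at h3
  have h4 := hN h3 1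
  rw [mul_one, Phi_monomial k φ S hS] at h4
  exact hφ h4

end Pool.Agent.K2h1.Sq
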